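import Pool.Agent.Helper89.GP.GoalsB

/-!
# Project GP: chains and fixed heights (packets CHN, FXD)
-/

namespace Pool.Agent.Helper88.GP

open Finset Pool.Agent.Helper89.GP

theorem chn : ChnStmt := by
  intro n R e h
  rw [Finset.card_le_one]
  have key : ∀ σ ∈ LX R, ∀ d : ℕ, ∀ i j : Fin n, (j : ℕ) = i + d + 1 →
      po σ (e i) < po σ (e j) := by
    intro σ hσ d
    induction d with
    | zero => intro i j hij; exact h i j (by omega) σ hσ
    | succ d ih =>
      intro i j hij
      have hk : (i : ℕ) + d + 1 < n := by have := j.isLt; omega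
      exact lt_trans (ih i ⟨i + d + 1, hk⟩ rfl) (h ⟨i + d + 1, hk⟩ j (by simp; omega) σ hσ)
  have mono : ∀ σ ∈ LX R, StrictMono (e.trans σ) := by
    intro σ hσ i j hij
    have h1 : (i : ℕ) < j := hij
    exact key σ hσ ((j : ℕ) - i - 1) i j (by omega)
  intro σ hσ σ' hσ'
  have h1 : StrictMono.orderIsoOfSurjective _ (mono σ hσ) (e.trans σ).surjective =
      StrictMono.orderIsoOfSurjective _ (mono σ' hσ') (e.trans σ').surjective :=
    Subsingleton.elim _ _
  ext a
  have h2 := congrArg (fun f : Fin n ≃o Fin n => f (e.symm a)) h1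
  simpa using congrArg Fin.val h2

theorem fxd : FxdStmt := by
  intro n R e hne h
  have key : ∀ m : ℕ, ∀ i : Fin n, (i : ℕ) = m → ∀ σ ∈ LX R, po σ (e i) = i := by
    intro m
    induction m using Nat.strong_induction_on with
    | _ m ih =>
      intro i hi
      have hge : ∀ σ ∈ LX R, (i : ℕ) ≤ po σ (e i) := by
        intro σ hσ
        by_contra hlt
        push Not at hlt
        have hj : po σ (e i) < n := po_lt_n σ (e i)
        have h1 := ih (po σ (e i)) (by omega) ⟨po σ (e i), hj⟩ rfl σ hσ
        have h2 : e ⟨po σ (e i), hj⟩ = e i := po_inj.1 h1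
        have h3 := congrArg Fin.val (e.injective h2)
        simp only at h3
        omega
      have hmean := h i
      unfold hh Ex at hmean
      have hc := card_pos_real hne
      rw [div_eq_iff hc.ne'] at hmean
      have hsum : ∑ σ ∈ LX R, ((po σ (e i) : ℝ) - ((i : ℕ) : ℝ)) = 0 := by
        rw [Finset.sum_sub_distrib, hmean, Finset.sum_const, nsmul_eq_mul]
        ring
      have hz := (Finset.sum_eq_zero_iff_of_nonneg (fun σ hσ => by
        have : ((i : ℕ) : ℝ) ≤ (po σ (e i) : ℝ) := by exact_mod_cast hge σ hσ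
        linarith)).1 hsum
      intro σ hσ
      have h4 := hz σ hσ
      have h5 : (po σ (e i) : ℝ) = ((i : ℕ) : ℝ) := by linarith
      exact_mod_cast h5
  rw [Finset.card_le_one]
  intro σ hσ σ' hσ'
  ext a
  have h1 := key _ (e.symm a) rfl σ hσ
  have h2 := key _ (e.symm a) rfl σ' hσ'
  rw [Equiv.apply_symm_apply] at h1 h2
  exact h1.trans h2.symm

end Pool.Agent.Helper88.GP
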